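import Mathlib

/-!
# MP_e24518_an: control functionals for vector capacities

Let `E` be a Banach lattice with order continuous norm and `u ≥ 0`. For every `ε > 0` there are a
positive functional `x*` and `δ > 0` such that `0 ≤ y ≤ u` and `x*(y) < δ` imply `‖y‖ ≤ ε`: otherwise
one builds `y_n ∈ [0,u]` with `‖y_n‖ > ε`, positive norming functionals `x_n*` of `y_n` and
`x_m*(y_n) < 2^{-n}` for `m < n`; the suprema `z_n = sup_{k ≥ n} y_k` decrease to some `z` with
`x_m*(z) ≤ 0` for all `m`, and `ε < x_n*(y_n) ≤ x_n*(z_n - z) ≤ ‖z_n - z‖ → 0`. Summing such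
functionals with weights gives one positive functional `x*` with `μ ≪ x* ∘ μ` for every vector
capacity `μ` with `μ(X) ≤ u`. Upper continuity of `μ` is not needed.
-/

open Filter Topology Set

namespace Pool.Agent.Results.MP_e24518_an.ControlFunctional

/-- The norm is order continuous: every monotone, order bounded sequence converges in norm. -/
def OrderContinuousNorm (E : Type*) [NormedAddCommGroup E] [Lattice E] : Prop :=
  ∀ x : ℕ → E, (Monotone x ∨ Antitone x) → BddAbove (range x) → BddBelow (range x) →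
    ∃ l, Tendsto x atTop (𝓝 l)

/-- A vector capacity on the `σ`-algebra of `X` with values in the positive cone of `E`. -/
structure VectorCapacity (X : Type*) [MeasurableSpace X] (E : Type*) [NormedAddCommGroup E]
    [Lattice E] where
  /-- the value on a measurable set -/
  toFun : {A : Set X // MeasurableSet A} → E
  nonneg : ∀ A, 0 ≤ toFun A
  empty : toFun ⟨∅, MeasurableSet.empty⟩ = 0
  mono : ∀ A B, A.1 ⊆ B.1 → toFun A ≤ toFun B

variable {E : Type*} [NormedAddCommGroup E] [NormedSpace ℝ E] [Lattice E] [HasSolidNorm E]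
  [IsOrderedAddMonoid E] [IsOrderedModule ℝ E]

/-- positive functional -/
def Pos (f : E →L[ℝ] ℝ) : Prop := ∀ x, 0 ≤ x → 0 ≤ f x

lemma norm_mono {a b : E} (ha : 0 ≤ a) (hab : a ≤ b) : ‖a‖ ≤ ‖b‖ := by
  apply norm_le_norm_of_abs_le_abs
  rwa [abs_of_nonneg ha, abs_of_nonneg (ha.trans hab)]

lemma smul_sup_zero {c : ℝ} (hc : 0 < c) (x : E) : (c • x) ⊔ 0 = c • (x ⊔ 0) := by
  have := (OrderIso.smulRight (β := E) hc).map_sup x 0
  simp only [OrderIso.smulRight_apply, smul_zero] at this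
  exact this.symm

lemma sup_zero_add (x y : E) : ‖(x + y) ⊔ 0‖ ≤ ‖x ⊔ 0‖ + ‖y ⊔ 0‖ := by
  refine (norm_mono le_sup_right ?_).trans (norm_add_le (x ⊔ 0) (y ⊔ 0))
  refine sup_le (add_le_add le_sup_left le_sup_left) (add_nonneg le_sup_right le_sup_right)

lemma norm_sup_zero_le (x : E) : ‖x ⊔ 0‖ ≤ ‖x‖ := by
  rw [← norm_abs_eq_norm x]
  exact norm_mono le_sup_right (sup_le (le_abs_self x) (abs_nonneg x))

lemma exists_pos_norming (y : E) (hy : 0 ≤ y) :
    ∃ f : E →L[ℝ] ℝ, Pos f ∧ (∀ x, f x ≤ ‖x‖) ∧ f y = ‖y‖ := by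
  by_cases hy0 : y = 0
  · refine ⟨0, fun x _ => le_refl _, fun x => norm_nonneg x, ?_⟩
    rw [hy0]; simp
  · obtain ⟨g, hg1, hg2⟩ := exists_extension_of_le_sublinear
      (LinearPMap.mkSpanSingleton y ‖y‖ hy0) (fun x => ‖x ⊔ 0‖)
      (fun c hc x => by
        rw [smul_sup_zero hc, norm_smul, Real.norm_eq_abs, abs_of_pos hc])
      (fun x y => sup_zero_add x y)
      (by
        rintro ⟨x, hx⟩
        obtain ⟨t, rfl⟩ := Submodule.mem_span_singleton.mp hx
        have hval : (LinearPMap.mkSpanSingleton y ‖y‖ hy0) ⟨t • y, hx⟩ = t * ‖y‖ :=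
          LinearPMap.mkSpanSingleton'_apply _ _ _ _ _
        rw [hval]
        change t * ‖y‖ ≤ ‖(t • y) ⊔ 0‖
        rcases le_total 0 t with ht | ht
        · rw [sup_eq_left.mpr (smul_nonneg ht hy), norm_smul, Real.norm_eq_abs, abs_of_nonneg ht]
        · exact (mul_nonpos_of_nonpos_of_nonneg ht (norm_nonneg y)).trans (norm_nonneg _))
    have hle : ∀ x, g x ≤ ‖x‖ := fun x => (hg2 x).trans (norm_sup_zero_le x)
    have habs : ∀ x, ‖g x‖ ≤ 1 * ‖x‖ := by
      intro x
      rw [one_mul, Real.norm_eq_abs, abs_le]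
      refine ⟨?_, hle x⟩
      have := hle (-x)
      rw [map_neg, norm_neg] at this
      linarith
    refine ⟨g.mkContinuous 1 habs, ?_, hle, ?_⟩
    · intro x hx
      have := hg2 (-x)
      rw [map_neg, sup_eq_right.mpr (neg_nonpos.mpr hx), norm_zero] at this
      change 0 ≤ g x
      linarith
    · change g y = ‖y‖
      have := hg1 ⟨y, Submodule.mem_span_singleton_self y⟩
      rw [this]
      exact LinearPMap.mkSpanSingleton_apply ℝ ℝ hy0 ‖y‖

lemma Pos.mono {f : E →L[ℝ] ℝ} (hf : Pos f) {x y : E} (h : x ≤ y) : f x ≤ f y := by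
  have := hf (y - x) (sub_nonneg.mpr h)
  rw [map_sub] at this
  linarith

/-- the uniform statement -/
lemma key (hE : OrderContinuousNorm E) (u : E) {ε : ℝ} (hε : 0 < ε) :
    ∃ s : E →L[ℝ] ℝ, Pos s ∧ ∃ δ > 0, ∀ y, 0 ≤ y → y ≤ u → s y < δ → ‖y‖ ≤ ε := by
  by_contra hcon
  push Not at hcon
  -- choice of the next vector
  choose! Y hY0 hYu hYs hYn using hcon
  have hF : ∀ y : E, ∃ f : E →L[ℝ] ℝ, Pos f ∧ (∀ x, f x ≤ ‖x‖) ∧ (0 ≤ y → f y = ‖y‖) := by
    intro y
    by_cases hy : 0 ≤ y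
    · obtain ⟨f, h1, h2, h3⟩ := exists_pos_norming y hy
      exact ⟨f, h1, h2, fun _ => h3⟩
    · exact ⟨0, fun x _ => le_refl _, fun x => norm_nonneg x, fun h => absurd h hy⟩
  choose F hF1 hF2 hF3 using hF
  let S : ℕ → (E →L[ℝ] ℝ) := fun n => Nat.rec 0 (fun n s => s + F (Y s ((1 / 2 : ℝ) ^ n))) n
  have hS0 : S 0 = 0 := rfl
  have hS1 : ∀ n, S (n + 1) = S n + F (Y (S n) ((1 / 2 : ℝ) ^ n)) := fun n => rfl
  have hpow : ∀ n : ℕ, (0 : ℝ) < (1 / 2 : ℝ) ^ n := fun n => by positivity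
  have hSpos : ∀ n, Pos (S n) := by
    intro n
    induction n with
    | zero => intro x _; rw [hS0]; simp
    | succ n ih =>
      intro x hx
      rw [hS1]
      exact add_nonneg (ih x hx) (hF1 _ x hx)
  set y : ℕ → E := fun n => Y (S n) ((1 / 2 : ℝ) ^ n) with hy
  set f : ℕ → (E →L[ℝ] ℝ) := fun n => F (y n) with hf
  have hy0 : ∀ n, 0 ≤ y n := fun n => hY0 (S n) (hSpos n) _ (hpow n)
  have hyu : ∀ n, y n ≤ u := fun n => hYu (S n) (hSpos n) _ (hpow n)
  have hys : ∀ n, S n (y n) < (1 / 2 : ℝ) ^ n := fun n => hYs (S n) (hSpos n) _ (hpow n)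
  have hyn : ∀ n, ε < ‖y n‖ := fun n => hYn (S n) (hSpos n) _ (hpow n)
  have hfpos : ∀ n, Pos (f n) := fun n => hF1 _
  have hfle : ∀ n x, f n x ≤ ‖x‖ := fun n x => hF2 _ x
  have hfy : ∀ n, f n (y n) = ‖y n‖ := fun n => hF3 _ (hy0 n)
  have hfS : ∀ m n, m < n → ∀ x, 0 ≤ x → f m x ≤ S n x := by
    intro m n hmn x hx
    induction n with
    | zero => omega
    | succ n ih =>
      rw [hS1]
      change f m x ≤ S n x + f n x
      rcases Nat.lt_succ_iff_lt_or_eq.mp hmn with h | h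
      · have := ih h; have h2 := hfpos n x hx; linarith
      · rw [h]; have := hSpos n x hx; linarith
  have hfy' : ∀ m n, m < n → f m (y n) ≤ (1 / 2 : ℝ) ^ n :=
    fun m n hmn => (hfS m n hmn _ (hy0 n)).trans (hys n).le
  -- suprema
  let P : ℕ → ℕ → E := fun n => partialSups (fun k => y (n + k))
  have hPu : ∀ n N, P n N ≤ u := fun n N => partialSups_le _ _ _ fun k _ => hyu _
  have hP0 : ∀ n N, 0 ≤ P n N := fun n N =>
    (hy0 (n + 0)).trans (le_partialSups_of_le (fun k => y (n + k)) (Nat.zero_le N))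
  have hPlim : ∀ n, ∃ z, Tendsto (P n) atTop (𝓝 z) := by
    intro n
    refine hE (P n) (Or.inl (partialSups _).monotone) ⟨u, ?_⟩ ⟨0, ?_⟩
    · rintro _ ⟨N, rfl⟩; exact hPu n N
    · rintro _ ⟨N, rfl⟩; exact hP0 n N
  choose z hz using hPlim
  have hPz : ∀ n N, P n N ≤ z n := fun n N => (partialSups _).monotone.ge_of_tendsto (hz n) N
  have hzu : ∀ n, z n ≤ u := fun n => le_of_tendsto' (hz n) (hPu n)
  have hz0 : ∀ n, 0 ≤ z n := fun n => (hP0 n 0).trans (hPz n 0)
  have hyz : ∀ n, y n ≤ z n := fun n =>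
    (le_partialSups_of_le (fun k => y (n + k)) (le_refl 0)).trans (hPz n 0)
  have hzanti : Antitone z := by
    refine antitone_nat_of_succ_le fun n => ?_
    refine le_of_tendsto' (hz (n + 1)) fun N => ?_
    refine le_trans ?_ (hPz n (N + 1))
    refine partialSups_le _ _ _ fun k hk => ?_
    have e : y (n + 1 + k) = (fun k => y (n + k)) (k + 1) :=
      congrArg y (by omega : n + 1 + k = n + (k + 1))
    rw [e]
    exact le_partialSups_of_le (fun k => y (n + k)) (Nat.succ_le_succ hk)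
  have hfz : ∀ m n, m < n → f m (z n) ≤ 2 * (1 / 2 : ℝ) ^ n := by
    intro m n hmn
    have h1 : ∀ N, f m (P n N) ≤ (2 - (1 / 2 : ℝ) ^ N) * (1 / 2 : ℝ) ^ n := by
      intro N
      induction N with
      | zero =>
        have : P n 0 = y n := by simp [P]
        rw [this]
        have := hfy' m n hmn
        norm_num
        norm_num at this
        linarith
      | succ N ih =>
        have h2 : P n (N + 1) ≤ P n N + y (n + (N + 1)) := by
          have : P n (N + 1) = P n N ⊔ y (n + (N + 1)) := by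
            simp only [P]
            rw [partialSups_add_one]
          rw [this]
          exact sup_le (le_add_of_nonneg_right (hy0 (n + (N + 1))))
            (le_add_of_nonneg_left (hP0 n N))
        have h3 := (hfpos m).mono h2
        rw [map_add] at h3
        have h4 := hfy' m (n + (N + 1)) (by omega)
        have h5 : (1 / 2 : ℝ) ^ (n + (N + 1)) = (1 / 2) * ((1 / 2) ^ N * (1 / 2) ^ n) := by
          rw [pow_add, pow_succ]; ring
        have h6 : (1 / 2 : ℝ) ^ (N + 1) = (1 / 2) * (1 / 2) ^ N := by rw [pow_succ]; ring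
        rw [h5] at h4
        rw [h6]
        linarith
    refine le_of_tendsto' (((f m).continuous.tendsto _).comp (hz n)) fun N => ?_
    refine (h1 N).trans ?_
    have := hpow N
    have := hpow n
    gcongr
    linarith
  obtain ⟨w, hw⟩ : ∃ w, Tendsto z atTop (𝓝 w) := by
    refine hE z (Or.inr hzanti) ⟨u, ?_⟩ ⟨0, ?_⟩
    · rintro _ ⟨N, rfl⟩; exact hzu N
    · rintro _ ⟨N, rfl⟩; exact hz0 N
  have hwz : ∀ n, w ≤ z n := fun n => hzanti.le_of_tendsto hw n
  have hfw : ∀ m, f m w ≤ 0 := by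
    intro m
    have h1 : Tendsto (fun n : ℕ => 2 * (1 / 2 : ℝ) ^ n) atTop (𝓝 0) := by
      have := (tendsto_pow_atTop_nhds_zero_of_lt_one (r := (1 / 2 : ℝ)) (by norm_num)
        (by norm_num)).const_mul 2
      rwa [mul_zero] at this
    refine ge_of_tendsto h1 ?_
    filter_upwards [eventually_gt_atTop m] with n hn
    exact ((hfpos m).mono (hwz n)).trans (hfz m n hn)
  have hfin : ∀ n, ε ≤ ‖z n - w‖ := by
    intro n
    have h1 := (hfpos n).mono (hyz n)
    have h2 := hfle n (z n - w)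
    rw [map_sub] at h2
    have h3 := hfw n
    have h4 := hyn n
    rw [← hfy n] at h4
    linarith
  have hlim : Tendsto (fun n => ‖z n - w‖) atTop (𝓝 0) :=
    tendsto_iff_norm_sub_tendsto_zero.mp hw
  have := ge_of_tendsto' hlim hfin
  linarith

/-- one functional for all `ε` -/
lemma key_all [CompleteSpace E] (hE : OrderContinuousNorm E) (u : E) :
    ∃ s : E →L[ℝ] ℝ, Pos s ∧ ∀ ε > 0, ∃ δ > 0, ∀ y, 0 ≤ y → y ≤ u → s y < δ → ‖y‖ < ε := by
  have h : ∀ n : ℕ, ∃ s : E →L[ℝ] ℝ, Pos s ∧ ∃ δ > 0, ∀ y, 0 ≤ y → y ≤ u → s y < δ →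
      ‖y‖ ≤ 1 / ((n : ℝ) + 1) := fun n => key hE u (by positivity)
  choose s hs δ hδ hsδ using h
  let w : ℕ → ℝ := fun n => (1 / 2 : ℝ) ^ n / (1 + ‖s n‖)
  have hw : ∀ n, 0 < w n := fun n => by
    have := norm_nonneg (s n)
    positivity
  have hsum : Summable (fun n => w n • s n) := by
    refine Summable.of_norm_bounded (g := fun n => (1 / 2 : ℝ) ^ n)
      (summable_geometric_of_lt_one (by norm_num) (by norm_num)) fun n => ?_
    have h0 := norm_nonneg (s n)
    rw [norm_smul, Real.norm_eq_abs, abs_of_pos (hw n)]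
    simp only [w]
    rw [div_mul_eq_mul_div, div_le_iff₀ (by positivity)]
    have : (0 : ℝ) < (1 / 2) ^ n := by positivity
    nlinarith
  have happ : ∀ y, HasSum (fun n => w n * s n y) ((∑' n, w n • s n : E →L[ℝ] ℝ) y) := by
    intro y
    have := hsum.hasSum.mapL (ContinuousLinearMap.apply ℝ ℝ y)
    simpa using this
  refine ⟨∑' n, w n • s n, ?_, ?_⟩
  · intro x hx
    refine (happ x).nonneg fun n => mul_nonneg (hw n).le (hs n x hx)
  · intro ε hε
    obtain ⟨n, hn⟩ := exists_nat_one_div_lt hε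
    refine ⟨w n * δ n, mul_pos (hw n) (hδ n), fun y hy0 hyu hlt => ?_⟩
    refine (hsδ n y hy0 hyu ?_).trans_lt hn
    have h1 : w n * s n y ≤ (∑' n, w n • s n : E →L[ℝ] ℝ) y :=
      le_hasSum (happ y) n fun j _ => mul_nonneg (hw j).le (hs j y hy0)
    exact lt_of_mul_lt_mul_left (h1.trans_lt hlt) (hw n).le

/-- Let `E` be a Banach lattice with order continuous norm. Every vector capacity `μ` with values in
`E` is absolutely continuous with respect to `x* ∘ μ` for some positive functional `x*`. -/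
theorem result {X : Type*} [MeasurableSpace X] {E : Type*} [NormedAddCommGroup E] [NormedSpace ℝ E]
    [CompleteSpace E] [Lattice E] [HasSolidNorm E] [IsOrderedAddMonoid E] [IsOrderedModule ℝ E]
    (hE : OrderContinuousNorm E) (μ : VectorCapacity X E) :
    ∃ xs : E →L[ℝ] ℝ, (∀ x, 0 ≤ x → 0 ≤ xs x) ∧
      ∀ ε > 0, ∃ δ > 0, ∀ A, xs (μ.toFun A) < δ → ‖μ.toFun A‖ < ε := by
  obtain ⟨s, hs, h⟩ := key_all hE (μ.toFun ⟨Set.univ, MeasurableSet.univ⟩)
  refine ⟨s, hs, fun ε hε => ?_⟩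
  obtain ⟨δ, hδ, h'⟩ := h ε hε
  exact ⟨δ, hδ, fun A hA => h' _ (μ.nonneg A) (μ.mono A _ (Set.subset_univ _)) hA⟩

end Pool.Agent.Results.MP_e24518_an.ControlFunctional
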